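import Mathlib

open Matrix

namespace Pool.Agent.Results.MP_23ff89_al.PairsNotTriple

/-- An irreducible tridiagonal square matrix. -/
def IrredTridiag {K : Type} [Field K] {n : ℕ} (B : Matrix (Fin n) (Fin n) K) : Prop :=
  ∀ i j : Fin n, (1 < |(i : ℤ) - (j : ℤ)| → B i j = 0) ∧ (|(i : ℤ) - (j : ℤ)| = 1 → B i j ≠ 0)

/-- Some ordered basis makes `A` diagonal and `B` irreducible tridiagonal. -/
def DiagTri {K V : Type} [Field K] [AddCommGroup V] [Module K V] (A B : V →ₗ[K] V) : Prop :=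
  ∃ (n : ℕ) (b : Module.Basis (Fin n) K V),
    (LinearMap.toMatrix b b A).IsDiag ∧ IrredTridiag (LinearMap.toMatrix b b B)

/-- Some ordered basis makes `A` diagonal and both `B` and `C` irreducible tridiagonal. -/
def DiagTriTri {K V : Type} [Field K] [AddCommGroup V] [Module K V] (A B C : V →ₗ[K] V) : Prop :=
  ∃ (n : ℕ) (b : Module.Basis (Fin n) K V),
    (LinearMap.toMatrix b b A).IsDiag ∧ IrredTridiag (LinearMap.toMatrix b b B) ∧
      IrredTridiag (LinearMap.toMatrix b b C)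

/-- Leonard pair. -/
def IsLeonardPair {K V : Type} [Field K] [AddCommGroup V] [Module K V] (A B : V →ₗ[K] V) : Prop :=
  DiagTri A B ∧ DiagTri B A

/-- Leonard triple. -/
def IsLeonardTriple {K V : Type} [Field K] [AddCommGroup V] [Module K V] (A B C : V →ₗ[K] V) :
    Prop :=
  DiagTriTri A B C ∧ DiagTriTri B A C ∧ DiagTriTri C A B

lemma diagTri_of (A B P Q D T : Matrix (Fin 3) (Fin 3) ℚ) (h1 : P * Q = 1) (h2 : Q * A * P = D)
    (h3 : Q * B * P = T) (hD : D.IsDiag) (hT : IrredTridiag T) :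
    DiagTri (Matrix.toLin' A) (Matrix.toLin' B) := by
  have h1' : Q * P = 1 := mul_eq_one_comm.1 h1
  let e : (Fin 3 → ℚ) ≃ₗ[ℚ] (Fin 3 → ℚ) := Matrix.toLin'OfInv h1 h1'
  let b : Module.Basis (Fin 3) ℚ (Fin 3 → ℚ) := (Pi.basisFun ℚ (Fin 3)).map e.symm
  have key : ∀ M : Matrix (Fin 3) (Fin 3) ℚ,
      LinearMap.toMatrix b b (Matrix.toLin' M) = Q * M * P := by
    intro M
    ext i j
    rw [LinearMap.toMatrix_apply]
    simp only [b, Module.Basis.map_apply, Module.Basis.map_repr, LinearEquiv.symm_symm,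
      LinearEquiv.trans_apply, Pi.basisFun_repr, Pi.basisFun_apply]
    change (Q *ᵥ (M *ᵥ (P *ᵥ Pi.single j 1))) i = _
    rw [Matrix.mulVec_mulVec, Matrix.mulVec_mulVec, Matrix.mulVec_single_one]
    rfl
  exact ⟨3, b, by rw [key, h2]; exact hD, by rw [key, h3]; exact hT⟩

theorem result : ∃ A B C : (Fin 3 → ℚ) →ₗ[ℚ] (Fin 3 → ℚ),
    IsLeonardPair A B ∧ IsLeonardPair A C ∧ IsLeonardPair B C ∧ ¬ IsLeonardTriple A B C := by
  let A : Matrix (Fin 3) (Fin 3) ℚ := !![0, 0, 0; 0, 1, 0; 0, 0, -3]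
  let B : Matrix (Fin 3) (Fin 3) ℚ := !![-7, 1, 0; -8, 0, 1; 0, 2, -7]
  let C : Matrix (Fin 3) (Fin 3) ℚ := !![-3, 0, -1; 0, -3, -2; 8, -3, 0]
  refine ⟨Matrix.toLin' A, Matrix.toLin' B, Matrix.toLin' C, ⟨?_, ?_⟩, ⟨?_, ?_⟩, ⟨?_, ?_⟩, ?_⟩
  · refine diagTri_of A B !![0, 0, -1; 0, -1, 0; 1, 0, 0] !![0, 0, 1; 0, -1, 0; -1, 0, 0]
      !![-3, 0, 0; 0, 1, 0; 0, 0, 0] !![-7, -2, 0; -1, 0, -8; 0, 1, -7] ?_ ?_ ?_ ?_ ?_
    · decide +kernel
    · decide +kernel
    · decide +kernel
    · unfold Matrix.IsDiag Pairwise; decide +kernel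
    · unfold IrredTridiag; decide +kernel
  · refine diagTri_of B A !![1, 1, 1; 1, 0, 6; 2, 8, 2] !![8/5, -1/5, -1/5; -1/3, 0, 1/6; -4/15, 1/5, 1/30]
      !![-6, 0, 0; 0, -7, 0; 0, 0, -1] !![1, 24/5, 0; -1, -4, -1; 0, -4/5, 1] ?_ ?_ ?_ ?_ ?_
    · decide +kernel
    · decide +kernel
    · decide +kernel
    · unfold Matrix.IsDiag Pairwise; decide +kernel
    · unfold IrredTridiag; decide +kernel
  · refine diagTri_of A C !![-1, 0, 0; 0, 0, -1; 0, 1, 0] !![-1, 0, 0; 0, 0, 1; 0, -1, 0]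
      !![0, 0, 0; 0, -3, 0; 0, 0, 1] !![-3, 1, 0; -8, 0, 3; 0, 2, -3] ?_ ?_ ?_ ?_ ?_
    · decide +kernel
    · decide +kernel
    · decide +kernel
    · unfold Matrix.IsDiag Pairwise; decide +kernel
    · unfold IrredTridiag; decide +kernel
  · refine diagTri_of C A !![-1, -3, -1; -2, -8, -2; 1, 0, 2] !![-8, 3, -1; 1, -1/2, 0; 4, -3/2, 1]
      !![-2, 0, 0; 0, -3, 0; 0, 0, -1] !![-3, -24, 0; 1, 4, 1; 0, 12, -3] ?_ ?_ ?_ ?_ ?_
    · decide +kernel
    · decide +kernel
    · decide +kernel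
    · unfold Matrix.IsDiag Pairwise; decide +kernel
    · unfold IrredTridiag; decide +kernel
  · refine diagTri_of B C !![1, 1, 1; 0, 1, 6; 8, 2, 2] !![-1/3, 0, 1/6; 8/5, -1/5, -1/5; -4/15, 1/5, 1/30]
      !![-7, 0, 0; 0, -6, 0; 0, 0, -1] !![5, 5/2, 0; -16, -38/5, -8/5; 0, 1/10, -17/5] ?_ ?_ ?_ ?_ ?_
    · decide +kernel
    · decide +kernel
    · decide +kernel
    · unfold Matrix.IsDiag Pairwise; decide +kernel
    · unfold IrredTridiag; decide +kernel
  · refine diagTri_of C B !![-3, -1, -1; -8, -2, -2; 0, 1, 2] !![1, -1/2, 0; -8, 3, -1; 4, -3/2, 1]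
      !![-3, 0, 0; 0, -2, 0; 0, 0, -1] !![1, 1/2, 0; -16, -2, 8; 0, -9/2, -13] ?_ ?_ ?_ ?_ ?_
    · decide +kernel
    · decide +kernel
    · decide +kernel
    · unfold Matrix.IsDiag Pairwise; decide +kernel
    · unfold IrredTridiag; decide +kernel
  · rintro ⟨⟨n, b, hA, hB, hC⟩, -, -⟩
    have hn : n = 3 := by simpa using (Module.finrank_eq_card_basis b).symm
    subst hn
    have key : ∀ (f : (Fin 3 → ℚ) →ₗ[ℚ] (Fin 3 → ℚ)) (j : Fin 3), f (b j) =
        LinearMap.toMatrix b b f 0 j • b 0 + LinearMap.toMatrix b b f 1 j • b 1 +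
          LinearMap.toMatrix b b f 2 j • b 2 := by
      intro f j
      conv_lhs => rw [← b.sum_repr (f (b j))]
      simp only [Fin.sum_univ_three, LinearMap.toMatrix_apply]
    have a0 := key (Matrix.toLin' A) 0
    have a1 := key (Matrix.toLin' A) 1
    have b0 := key (Matrix.toLin' B) 0
    have c0 := key (Matrix.toLin' C) 0
    rw [hA (show (1 : Fin 3) ≠ 0 by decide), hA (show (2 : Fin 3) ≠ 0 by decide)] at a0
    rw [hA (show (0 : Fin 3) ≠ 1 by decide), hA (show (2 : Fin 3) ≠ 1 by decide)] at a1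
    rw [(hB 2 0).1 (by decide)] at b0
    rw [(hC 2 0).1 (by decide)] at c0
    have hx := b.ne_zero 0
    generalize LinearMap.toMatrix b b (Matrix.toLin' A) = D at *
    generalize LinearMap.toMatrix b b (Matrix.toLin' B) = T at *
    generalize LinearMap.toMatrix b b (Matrix.toLin' C) = S at *
    generalize b 0 = x at *
    generalize b 1 = y at *
    have a00 := congrFun a0 0
    have a01 := congrFun a0 1
    have a02 := congrFun a0 2
    have a10 := congrFun a1 0
    have a11 := congrFun a1 1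
    have a12 := congrFun a1 2
    have b00 := congrFun b0 0
    have b01 := congrFun b0 1
    have b02 := congrFun b0 2
    have c00 := congrFun c0 0
    have c01 := congrFun c0 1
    have c02 := congrFun c0 2
    simp only [A, B, C, Matrix.toLin'_apply, Matrix.mulVec, dotProduct, Fin.sum_univ_three,
      Pi.add_apply, Pi.smul_apply, smul_eq_mul, Matrix.of_apply, Matrix.cons_val', Matrix.cons_val_zero,
      Matrix.cons_val_one, Matrix.cons_val_two, Matrix.cons_val_fin_one, Matrix.head_cons,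
      Matrix.tail_cons, Matrix.empty_val', Matrix.head_fin_const, zero_mul, add_zero,
      zero_add, one_mul] at a00 a01 a02 a10 a11 a12 b00 b01 b02 c00 c01 c02
    apply hx
    have hy01 : y 0 * y 1 = 0 := by linear_combination y 0 * a11 - y 1 * a10
    have hy02 : y 0 * y 2 = 0 := by linear_combination (-1/3) * (y 0 * a12 - y 2 * a10)
    have hy12 : y 1 * y 2 = 0 := by linear_combination (-1/4) * (y 1 * a12 - y 2 * a11)
    have hx01 : x 0 * x 1 = 0 := by linear_combination x 0 * a01 - x 1 * a00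
    have hx02 : x 0 * x 2 = 0 := by linear_combination (-1/3) * (x 0 * a02 - x 2 * a00)
    have hx12 : x 1 * x 2 = 0 := by linear_combination (-1/4) * (x 1 * a02 - x 2 * a01)
    have z0 : x 0 = 0 := by
      by_contra h
      have e1 : x 1 = 0 := (mul_eq_zero.1 hx01).resolve_left h
      have e2 : x 2 = 0 := (mul_eq_zero.1 hx02).resolve_left h
      rw [e1, e2] at b01 c02
      rcases mul_eq_zero.1 hy12 with h3 | h3
      · rw [h3] at b01; exact h (by linarith)
      · rw [h3] at c02; exact h (by linarith)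
    have z1 : x 1 = 0 := by
      by_contra h
      have e2 : x 2 = 0 := (mul_eq_zero.1 hx12).resolve_left h
      rw [z0] at b00
      rw [e2] at b02
      rcases mul_eq_zero.1 hy02 with h3 | h3
      · rw [h3] at b00; exact h (by linarith)
      · rw [h3] at b02; exact h (by linarith)
    have z2 : x 2 = 0 := by
      by_contra h
      rw [z0] at c00
      rw [z1] at c01
      rcases mul_eq_zero.1 hy01 with h3 | h3
      · rw [h3] at c00; exact h (by linarith)
      · rw [h3] at c01; exact h (by linarith)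
    ext i; fin_cases i <;> simp [z0, z1, z2]

end Pool.Agent.Results.MP_23ff89_al.PairsNotTriple
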